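import Pool.Agent.H5.M83c24bProof

set_option autoImplicit false

namespace Pool.Agent.Results.MP_83c24b_al.AdditiveByInversion

open Pool.Agent.H5.M83c24b

/-- There are linear algebraic groups `G ≤ GL_2(ℂ)` and `H ≤ GL_3(ℂ)`, not direct products of two
nontrivial groups (even as abstract groups) and with trivial centres, such that `G ≃ H` as abstract
groups while no isomorphism `G → H` is semialgebraic. -/
theorem result : ∃ (G : Subgroup (GL (Fin 2) ℂ)) (H : Subgroup (GL (Fin 3) ℂ)),
    IsAlgebraic G ∧ IsAlgebraic H ∧ IsIndecomposable G ∧ IsIndecomposable H ∧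
    Subgroup.center G = ⊥ ∧ Subgroup.center H = ⊥ ∧ Nonempty (G ≃* H) ∧
    ∀ φ : G ≃* H, ¬ IsSemialgebraic G H φ :=
  main

end Pool.Agent.Results.MP_83c24b_al.AdditiveByInversion
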